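import Mathlib

/-!
# Coefficients of the square root of a quadratic polynomial

`√((1 + x z)² + y z²) = 1 + x z + y z² ∑ ee x y n z^n`.
-/

set_option autoImplicit false

namespace Pool.Agent.Helper73.Gap

open Finset

section field

variable {K : Type} [Field K]

/-- coefficients -/
def ee (x y : K) : ℕ → K
  | 0 => 1 / 2
  | 1 => -x * (1 / 2)
  | n + 2 => -x * ee x y (n + 1) - y / 2 * ∑ i : Fin (n + 1), ee x y i * ee x y (n - i)

theorem ee_zero (x y : K) : ee x y 0 = 1 / 2 := by rw [ee]

theorem ee_one (x y : K) : ee x y 1 = -x * (1 / 2) := by rw [ee]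

theorem ee_add_two (x y : K) (n : ℕ) : ee x y (n + 2) = -x * ee x y (n + 1) -
    y / 2 * ∑ p ∈ antidiagonal n, ee x y p.1 * ee x y p.2 := by
  rw [ee, Finset.Nat.sum_antidiagonal_eq_sum_range_succ (fun i j => ee x y i * ee x y j) n,
    Finset.sum_range]

/-- homogeneity -/
theorem ee_scale (l x y : K) (n : ℕ) : ee (l * x) (l ^ 2 * y) n = l ^ n * ee x y n := by
  induction n using Nat.strong_induction_on with
  | _ n ih =>
    match n, ih with
    | 0, _ => rw [ee_zero, ee_zero, pow_zero, one_mul]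
    | 1, _ => rw [ee_one, ee_one]; ring
    | n + 2, ih =>
      rw [ee_add_two, ee_add_two, ih (n + 1) (by omega)]
      have h : ∀ p ∈ antidiagonal n, ee (l * x) (l ^ 2 * y) p.1 * ee (l * x) (l ^ 2 * y) p.2 =
          l ^ n * (ee x y p.1 * ee x y p.2) := by
        intro p hp
        have hp' := mem_antidiagonal.mp hp
        rw [ih p.1 (by omega), ih p.2 (by omega), ← hp', pow_add]
        ring
      rw [sum_congr rfl h, ← mul_sum]
      ring

/-- the sign of `x` -/
theorem ee_neg (x y : K) (n : ℕ) : ee (-x) y n = (-1) ^ n * ee x y n := by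
  have h := ee_scale (-1) x y n
  rw [neg_one_mul, neg_one_sq, one_mul] at h
  exact h

theorem ee_map {L : Type} [Field L] (f : K →+* L) (x y : K) (n : ℕ) :
    f (ee x y n) = ee (f x) (f y) n := by
  induction n using Nat.strong_induction_on with
  | _ n ih =>
    match n, ih with
    | 0, _ => rw [ee_zero, ee_zero, map_div₀, map_one, map_ofNat]
    | 1, _ => rw [ee_one, ee_one, map_mul, map_neg, map_div₀, map_one, map_ofNat]
    | n + 2, ih =>
      rw [ee_add_two, ee_add_two, map_sub, map_mul, map_mul, map_neg, map_div₀, map_ofNat,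
        ih (n + 1) (by omega), map_sum]
      congr 2
      refine sum_congr rfl fun p hp => ?_
      have hp' := mem_antidiagonal.mp hp
      rw [map_mul, ih p.1 (by omega), ih p.2 (by omega)]

theorem ee_x_zero (x : K) (n : ℕ) : ee x 0 n = 1 / 2 * (-x) ^ n := by
  induction n using Nat.strong_induction_on with
  | _ n ih =>
    match n, ih with
    | 0, _ => rw [ee_zero, pow_zero, mul_one]
    | 1, _ => rw [ee_one, pow_one, mul_comm]
    | n + 2, ih =>
      rw [ee_add_two, ih (n + 1) (by omega), zero_div, zero_mul, sub_zero]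
      ring

end field

theorem ee_nonneg (n : ℕ) : (0 : ℚ) ≤ ee (0 : ℚ) (-1) n := by
  induction n using Nat.strong_induction_on with
  | _ n ih =>
    match n, ih with
    | 0, _ => rw [ee_zero]; norm_num
    | 1, _ => rw [ee_one]; norm_num
    | n + 2, ih =>
      rw [ee_add_two]
      have h : 0 ≤ ∑ p ∈ antidiagonal n, ee (0 : ℚ) (-1) p.1 * ee (0 : ℚ) (-1) p.2 := by
        refine sum_nonneg fun p hp => ?_
        have hp' := mem_antidiagonal.mp hp
        exact mul_nonneg (ih p.1 (by omega)) (ih p.2 (by omega))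
      linarith

theorem ee_pos (j : ℕ) : (0 : ℚ) < ee (0 : ℚ) (-1) (2 * j) := by
  induction j with
  | zero => rw [mul_zero, ee_zero]; norm_num
  | succ j ih =>
    rw [Nat.mul_succ, ee_add_two]
    have h : ee (0 : ℚ) (-1) 0 * ee (0 : ℚ) (-1) (2 * j) ≤
        ∑ p ∈ antidiagonal (2 * j), ee (0 : ℚ) (-1) p.1 * ee (0 : ℚ) (-1) p.2 := by
      refine single_le_sum (f := fun p : ℕ × ℕ => ee (0 : ℚ) (-1) p.1 * ee (0 : ℚ) (-1) p.2)
        (fun p _ => mul_nonneg (ee_nonneg _) (ee_nonneg _)) (a := (0, 2 * j)) ?_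
      exact HasAntidiagonal.mem_antidiagonal.mpr (zero_add _)
    rw [ee_zero] at h
    linarith

theorem ee_continuous (x : ℚ) (n : ℕ) : Continuous fun y : ℚ => ee x y n := by
  induction n using Nat.strong_induction_on with
  | _ n ih =>
    match n, ih with
    | 0, _ => simp only [ee_zero]; exact continuous_const
    | 1, _ => simp only [ee_one]; exact continuous_const
    | n + 2, ih =>
      simp only [ee_add_two]
      refine (continuous_const.mul (ih (n + 1) (by omega))).sub
        ((continuous_id.div_const 2).mul (continuous_finsetSum _ fun p hp => ?_))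
      have hp' := mem_antidiagonal.mp hp
      exact (ih p.1 (by omega)).mul (ih p.2 (by omega))

/-! ### the approximation of the square root -/

section approx

open Polynomial

/-- the truncated series -/
noncomputable def pp (x y : ℝ) (N : ℕ) : ℝ[X] := ∑ n ∈ range N, C (ee x y n) * X ^ n

theorem coeff_pp (x y : ℝ) {N n : ℕ} (hn : n < N) : (pp x y N).coeff n = ee x y n := by
  unfold pp
  rw [finsetSum_coeff]
  simp only [coeff_C_mul, coeff_X_pow]
  rw [sum_eq_single n]
  · simp
  · intro m _ hm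
    rw [if_neg (Ne.symm hm), mul_zero]
  · intro h
    exact absurd (mem_range.mpr hn) h

theorem dvd_pp (x y : ℝ) (N : ℕ) :
    (X : ℝ[X]) ^ N ∣ C 2 * pp x y N + C (2 * x) * (pp x y N * X) + C y * (pp x y N ^ 2 * X ^ 2) -
      1 := by
  rw [X_pow_dvd_iff]
  intro n hn
  rw [coeff_sub, coeff_add, coeff_add, coeff_C_mul, coeff_C_mul, coeff_C_mul, coeff_pp x y hn,
    coeff_one]
  match n, hn with
  | 0, hn =>
    rw [coeff_mul_X_zero, ee_zero, mul_coeff_zero, coeff_X_pow]
    simp
  | 1, hn =>
    rw [coeff_mul_X, coeff_pp x y (by omega), ee_one, ee_zero,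
      coeff_mul_X_pow' (pp x y N ^ 2) 2 1]
    simp
    ring
  | n + 2, hn =>
    rw [coeff_mul_X, coeff_pp x y (by omega), coeff_mul_X_pow, ee_add_two, sq, coeff_mul]
    have h : ∀ p ∈ antidiagonal n, (pp x y N).coeff p.1 * (pp x y N).coeff p.2 =
        ee x y p.1 * ee x y p.2 := by
      intro p hp
      have hp' := mem_antidiagonal.mp hp
      rw [coeff_pp x y (by omega), coeff_pp x y (by omega)]
    rw [sum_congr rfl h, if_neg (by omega)]
    ring

theorem sqrt_approx (x y : ℝ) (N : ℕ) : ∃ C δ : ℝ, 0 < δ ∧ ∀ z : ℝ, 0 < z → z < δ →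
    |Real.sqrt ((1 + x * z) ^ 2 + y * z ^ 2) -
      (1 + x * z + y * z ^ 2 * ∑ n ∈ range N, ee x y n * z ^ n)| ≤ C * z ^ (N + 2) := by
  obtain ⟨Q, hQ⟩ := dvd_pp x y N
  -- bound of the quotient on the unit interval
  obtain ⟨B, hB⟩ := (isCompact_Icc (a := (0 : ℝ)) (b := 1)).exists_bound_of_continuousOn
    (f := fun z => Q.eval z) Q.continuous.continuousOn
  have hB0 : 0 ≤ B := (norm_nonneg _).trans (hB 0 ⟨le_rfl, zero_le_one⟩)
  have hev : ∀ z : ℝ, ∑ n ∈ range N, ee x y n * z ^ n = (pp x y N).eval z := by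
    intro z
    unfold pp
    rw [eval_finsetSum]
    simp
  -- near zero
  have hT : Filter.Tendsto (fun z : ℝ => 1 + x * z + y * z ^ 2 * (pp x y N).eval z)
      (nhds 0) (nhds 1) := by
    have hc : Continuous (fun z : ℝ => 1 + x * z + y * z ^ 2 * (pp x y N).eval z) := by fun_prop
    have := hc.tendsto 0
    simpa using this
  have hD : Filter.Tendsto (fun z : ℝ => (1 + x * z) ^ 2 + y * z ^ 2) (nhds 0) (nhds 1) := by
    have hc : Continuous (fun z : ℝ => (1 + x * z) ^ 2 + y * z ^ 2) := by fun_prop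
    have := hc.tendsto 0
    simpa using this
  have h1 := hT.eventually (lt_mem_nhds (show (1 / 2 : ℝ) < 1 by norm_num))
  have h2 := hD.eventually (lt_mem_nhds (show (0 : ℝ) < 1 by norm_num))
  obtain ⟨δ, hδ, h3⟩ := Metric.eventually_nhds_iff.mp (h1.and h2)
  refine ⟨2 * (|y| * B), min δ 1, lt_min hδ one_pos, fun z hz hz' => ?_⟩
  have hz1 : z < 1 := hz'.trans_le (min_le_right _ _)
  have hzδ : dist z 0 < δ := by
    rw [Real.dist_eq, sub_zero, abs_of_pos hz]
    exact hz'.trans_le (min_le_left _ _)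
  obtain ⟨h4, h5⟩ := h3 hzδ
  rw [hev]
  set T : ℝ := 1 + x * z + y * z ^ 2 * (pp x y N).eval z with hTdef
  set D : ℝ := (1 + x * z) ^ 2 + y * z ^ 2 with hDdef
  have h6 : 2 * (pp x y N).eval z + 2 * x * ((pp x y N).eval z * z) +
      y * ((pp x y N).eval z ^ 2 * z ^ 2) - 1 = z ^ N * Q.eval z := by
    have := congrArg (fun p : ℝ[X] => p.eval z) hQ
    simpa using this
  have h7 : T ^ 2 - D = y * z ^ 2 * (z ^ N * Q.eval z) := by
    rw [← h6, hTdef, hDdef]
    ring
  have h8 : (Real.sqrt D - T) * (Real.sqrt D + T) = -(T ^ 2 - D) := by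
    have := Real.sq_sqrt h5.le
    ring_nf
    rw [this]
    ring
  have h9 : |Real.sqrt D - T| * (1 / 2) ≤ |y| * B * z ^ (N + 2) := by
    calc |Real.sqrt D - T| * (1 / 2) ≤ |Real.sqrt D - T| * |Real.sqrt D + T| := by
          refine mul_le_mul_of_nonneg_left ?_ (abs_nonneg _)
          have : 0 ≤ Real.sqrt D := Real.sqrt_nonneg _
          rw [abs_of_pos (by linarith)]
          linarith
      _ = |T ^ 2 - D| := by rw [← abs_mul, h8, abs_neg]
      _ = |y| * z ^ 2 * (z ^ N * |Q.eval z|) := by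
          rw [h7, abs_mul, abs_mul, abs_mul, abs_of_pos (pow_pos hz 2), abs_of_pos (pow_pos hz N)]
      _ ≤ |y| * z ^ 2 * (z ^ N * B) := by
          refine mul_le_mul_of_nonneg_left ?_ (by positivity)
          refine mul_le_mul_of_nonneg_left ?_ (by positivity)
          exact hB z ⟨hz.le, hz1.le⟩
      _ = |y| * B * z ^ (N + 2) := by ring
  linarith

end approx

end Pool.Agent.Helper73.Gap
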