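import Pool.Agent.Helper73.Gap.State

/-!
# The two families of blocks and the states
-/

set_option autoImplicit false

namespace Pool.Agent.Helper73.Gap

open Finset Filter Topology

theorem ee_zero_odd (y : ℚ) (n : ℕ) : ee (0 : ℚ) y (2 * n + 1) = 0 := by
  have h := ee_neg (0 : ℚ) y (2 * n + 1)
  rw [neg_zero, pow_succ, pow_mul] at h
  norm_num at h
  linarith

theorem step' {N K L : ℕ} {sg : ℚ} (hsg : sg * sg = 1) (blk : ℕ → List (ℤ × ℤ))
    (h0 : ∀ s, Good (blk s)) (hL : ∀ s, (blk s).length = L) (c : ℕ → ℚ) (r : ℕ → ℕ → ℚ)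
    (ρ : ℕ → ℚ) (hρ : ∀ j, 0 < ρ j) (hr : ∀ j, Tendsto (fun s => r s j) atTop (𝓝 (ρ j)))
    (hc : ∀ᶠ s in atTop, 0 < sg * c s)
    (hbc : ∀ᶠ s : ℕ in atTop, ∀ j, bc (blk s) (2 * j) = c s * (s : ℚ) ^ (2 * j) * r s j)
    (h : St N K (-sg)) : St (N + 1) (K + L) sg := by
  have hs : ∀ᶠ s : ℕ in atTop, 0 < s := eventually_gt_atTop 0
  have hrN : ∀ᶠ s in atTop, 0 < r s N := (hr N).eventually (lt_mem_nhds (hρ N))
  have hc0 : ∀ s, 0 < sg * c s → c s ≠ 0 := by
    intro s h h'
    rw [h', mul_zero] at h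
    exact lt_irrefl _ h
  have hcast : Tendsto (fun s : ℕ => (s : ℚ)) atTop atTop := tendsto_natCast_atTop_atTop
  refine step hsg blk h0 hL ?_ ?_ ?_ h
  · filter_upwards [hs, hrN, hc, hbc] with s h1 h2 h3 h4
    rw [h4, ← mul_assoc, ← mul_assoc]
    have : (0 : ℚ) < (s : ℚ) := by exact_mod_cast h1
    positivity
  · intro j hj
    have hT : Tendsto (fun s : ℕ => ((s : ℚ) ^ (2 * (N - j)))⁻¹ * (r s j / r s N)) atTop
        (𝓝 (0 * (ρ j / ρ N))) := by
      refine Tendsto.mul ?_ ((hr j).div (hr N) (hρ N).ne')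
      refine tendsto_inv_atTop_zero.comp ((tendsto_pow_atTop ?_).comp hcast)
      omega
    rw [zero_mul] at hT
    refine hT.congr' ?_
    filter_upwards [hs, hrN, hc, hbc] with s h1 h2 h3 h4
    have h5 : (s : ℚ) ≠ 0 := by exact_mod_cast h1.ne'
    have h6 := hc0 s h3
    rw [h4, h4, show 2 * N = 2 * j + 2 * (N - j) by omega, pow_add]
    field_simp
  · have hT : Tendsto (fun s : ℕ => (s : ℚ) ^ 2 * (r s (N + 1) / r s N)) atTop atTop := by
      refine Tendsto.atTop_mul_pos (div_pos (hρ (N + 1)) (hρ N))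
        ((tendsto_pow_atTop two_ne_zero).comp hcast) ((hr (N + 1)).div (hr N) (hρ N).ne')
    refine hT.congr' ?_
    filter_upwards [hs, hrN, hc, hbc] with s h1 h2 h3 h4
    have h5 : (s : ℚ) ≠ 0 := by exact_mod_cast h1.ne'
    have h6 := hc0 s h3
    rw [h4, h4, show 2 * (N + 1) = 2 * N + 2 by omega, pow_add]
    field_simp

/-- adding a central root -/
theorem step_central {N K : ℕ} (h : St N K 1) : St (N + 1) (K + 1) (-1) := by
  refine step' (L := 1) (by norm_num) (fun s => [(0, -(s : ℤ) ^ 2)]) ?_ (fun s => rfl)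
    (fun s => -(s : ℚ) ^ 2) (fun s j => ee (0 : ℚ) (-1) (2 * j))
    (fun j => ee (0 : ℚ) (-1) (2 * j)) ee_pos (fun j => tendsto_const_nhds) ?_ ?_ ?_
  · intro s n
    simp only [bc, List.map_cons, List.map_nil, List.sum_cons, List.sum_nil, add_zero]
    rw [Int.cast_zero, ee_zero_odd, mul_zero]
  · filter_upwards [eventually_gt_atTop 0] with s hs
    have : (0 : ℚ) < (s : ℚ) := by exact_mod_cast hs
    rw [neg_mul_neg, one_mul]
    positivity
  · refine Eventually.of_forall fun s j => ?_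
    simp only [bc, List.map_cons, List.map_nil, List.sum_cons, List.sum_nil, add_zero]
    push_cast
    have h := ee_scale (s : ℚ) 0 (-1) (2 * j)
    rw [mul_zero, mul_neg_one] at h
    rw [h]
    ring
  · rw [neg_neg]
    exact h

/-- adding a pair of roots -/
theorem step_pair {N K : ℕ} (h : St N K (-1)) : St (N + 1) (K + 2) 1 := by
  have hev : ∀ (x y : ℚ) (j : ℕ), ee (-x) y (2 * j) = ee x y (2 * j) := by
    intro x y j
    rw [ee_neg, pow_mul, neg_one_sq, one_pow, one_mul]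
  have hcast : Tendsto (fun s : ℕ => (s : ℚ)) atTop atTop := tendsto_natCast_atTop_atTop
  refine step' (L := 2) (by norm_num) (fun s => [((s : ℤ), 1), (-(s : ℤ), 1)]) ?_ (fun s => rfl)
    (fun s => 2) (fun s j => ee (1 : ℚ) (((s : ℚ) ^ 2)⁻¹) (2 * j))
    (fun j => 1 / 2) (fun j => by norm_num) (fun j => ?_) ?_ ?_ h
  · intro s n
    simp only [bc, List.map_cons, List.map_nil, List.sum_cons, List.sum_nil, add_zero]
    push_cast
    rw [ee_neg, pow_succ, pow_mul]
    norm_num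
  · have h1 : ee (1 : ℚ) 0 (2 * j) = 1 / 2 := by
      rw [ee_x_zero, pow_mul, neg_one_sq, one_pow, mul_one]
    rw [← h1]
    have h2 : Tendsto (fun s : ℕ => ((s : ℚ) ^ 2)⁻¹) atTop (𝓝 0) :=
      tendsto_inv_atTop_zero.comp ((tendsto_pow_atTop two_ne_zero).comp hcast)
    exact ((ee_continuous 1 (2 * j)).tendsto 0).comp h2
  · exact Eventually.of_forall fun s => by norm_num
  · filter_upwards [eventually_gt_atTop 0] with s hs j
    have hs0 : (s : ℚ) ≠ 0 := by exact_mod_cast hs.ne'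
    simp only [bc, List.map_cons, List.map_nil, List.sum_cons, List.sum_nil, add_zero]
    push_cast
    have h := ee_scale (s : ℚ) 1 (((s : ℚ) ^ 2)⁻¹) (2 * j)
    rw [mul_one, mul_inv_cancel₀ (pow_ne_zero 2 hs0)] at h
    rw [hev, h]
    ring

theorem st_zero : St 0 1 1 := by
  refine ⟨fun _ => [(0, 1)], fun _ => 1, 1 / 2, ?_, ?_, ?_, ?_, ?_, ?_⟩
  · intro i n
    simp only [bc, List.map_cons, List.map_nil, List.sum_cons, List.sum_nil, add_zero]
    rw [Int.cast_zero, ee_zero_odd, mul_zero]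
  · simp
  · intro i
    norm_num
  · norm_num
  · have h := Matrix.det_fin_one (Matrix.of fun j _ : Fin 1 => bc [(0, 1)] (2 * (j : ℕ)))
    refine fun h' => ?_
    have h2 := h.symm.trans h'
    simp [bc, ee_zero] at h2
  · intro j
    have hj : j = Fin.last 0 := Fin.ext (by
      have := j.isLt
      rw [Fin.val_last]
      omega)
    rw [if_pos hj, hj]
    simp [bc, ee_zero]

theorem st_all (m : ℕ) : St (2 * m) (3 * m + 1) 1 ∧ St (2 * m + 1) (3 * m + 2) (-1) := by
  induction m with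
  | zero => exact ⟨st_zero, step_central st_zero⟩
  | succ m ih =>
    have h1 : St (2 * (m + 1)) (3 * (m + 1) + 1) 1 := step_pair ih.2
    exact ⟨h1, step_central h1⟩

end Pool.Agent.Helper73.Gap
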