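import Pool.Agent.Helper73.Gap.Fam

/-!
# From a weighted list of nodes to sums of square roots close to integers
-/

set_option autoImplicit false

namespace Pool.Agent.Helper73.Gap

open Finset Filter Topology

/-- for all large `n` some sum of `k` square roots of positive integers up to `n` differs from an
integer by a positive amount which is at most `C n^(-e)` -/
def GapBound (k : ℕ) (e : ℝ) : Prop :=
  ∃ C : ℝ, 0 < C ∧ ∃ n₀ : ℕ, ∀ n : ℕ, n₀ ≤ n → ∃ a : Fin k → ℕ,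
    (∀ i, 1 ≤ a i ∧ a i ≤ n) ∧ ∃ m : ℤ,
      0 < |∑ i, Real.sqrt (a i : ℝ) - (m : ℝ)| ∧
      |∑ i, Real.sqrt (a i : ℝ) - (m : ℝ)| ≤ C * (n : ℝ) ^ (-e)

/-- value of a weighted node -/
noncomputable def nodeval (t : ℕ × ℤ × ℤ) (z : ℝ) : ℝ :=
  (t.1 : ℝ) * Real.sqrt ((1 + (t.2.1 : ℝ) * z) ^ 2 + (t.2.2 : ℝ) * z ^ 2)

/-- row of a list -/
def row (T : List (ℕ × ℤ × ℤ)) (n : ℕ) : ℚ :=
  (T.map fun t => (t.1 : ℚ) * ((t.2.2 : ℚ) * ee (t.2.1 : ℚ) (t.2.2 : ℚ) n)).sum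

theorem approx_list (T : List (ℕ × ℤ × ℤ)) (R : ℕ) : ∃ C δ : ℝ, 0 < δ ∧ ∀ z : ℝ, 0 < z → z < δ →
    |(T.map fun t => nodeval t z).sum - ((T.map fun t => (t.1 : ℝ)).sum +
      (T.map fun t => (t.1 : ℝ) * (t.2.1 : ℝ)).sum * z +
      z ^ 2 * ∑ n ∈ range R, (row T n : ℝ) * z ^ n)| ≤ C * z ^ (R + 2) := by
  induction T with
  | nil =>
    refine ⟨0, 1, one_pos, fun z _ _ => ?_⟩
    simp [row]
  | cons t T ih =>
    obtain ⟨C₂, δ₂, hδ₂, h₂⟩ := ih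
    obtain ⟨C₁, δ₁, hδ₁, h₁⟩ := sqrt_approx (t.2.1 : ℝ) (t.2.2 : ℝ) R
    refine ⟨(t.1 : ℝ) * C₁ + C₂, min δ₁ δ₂, lt_min hδ₁ hδ₂, fun z hz hz' => ?_⟩
    have g₁ := h₁ z hz (hz'.trans_le (min_le_left _ _))
    have g₂ := h₂ z hz (hz'.trans_le (min_le_right _ _))
    have hrow : ∑ n ∈ range R, (row (t :: T) n : ℝ) * z ^ n =
        (t.1 : ℝ) * ((t.2.2 : ℝ) * ∑ n ∈ range R, ee (t.2.1 : ℝ) (t.2.2 : ℝ) n * z ^ n) +
        ∑ n ∈ range R, (row T n : ℝ) * z ^ n := by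
      rw [mul_sum, mul_sum, ← sum_add_distrib]
      refine sum_congr rfl fun n _ => ?_
      have h : (row (t :: T) n : ℝ) = (t.1 : ℝ) * ((t.2.2 : ℝ) *
          ee (t.2.1 : ℝ) (t.2.2 : ℝ) n) + (row T n : ℝ) := by
        have h' : ((ee (t.2.1 : ℚ) (t.2.2 : ℚ) n : ℚ) : ℝ) = ee (t.2.1 : ℝ) (t.2.2 : ℝ) n := by
          have := ee_map (Rat.castHom ℝ) (t.2.1 : ℚ) (t.2.2 : ℚ) n
          simpa using this
        rw [← h']
        unfold row
        rw [List.map_cons, List.sum_cons]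
        push_cast
        ring
      rw [h]
      ring
    rw [List.map_cons, List.map_cons, List.map_cons, List.sum_cons, List.sum_cons, List.sum_cons,
      hrow]
    have e : nodeval t z + (T.map fun t => nodeval t z).sum - ((t.1 : ℝ) +
        (T.map fun t => (t.1 : ℝ)).sum + ((t.1 : ℝ) * (t.2.1 : ℝ) +
        (T.map fun t => (t.1 : ℝ) * (t.2.1 : ℝ)).sum) * z + z ^ 2 *
        ((t.1 : ℝ) * ((t.2.2 : ℝ) * ∑ n ∈ range R, ee (t.2.1 : ℝ) (t.2.2 : ℝ) n * z ^ n) +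
        ∑ n ∈ range R, (row T n : ℝ) * z ^ n)) =
        (t.1 : ℝ) * (Real.sqrt ((1 + (t.2.1 : ℝ) * z) ^ 2 + (t.2.2 : ℝ) * z ^ 2) -
          (1 + (t.2.1 : ℝ) * z + (t.2.2 : ℝ) * z ^ 2 *
            ∑ n ∈ range R, ee (t.2.1 : ℝ) (t.2.2 : ℝ) n * z ^ n)) +
        ((T.map fun t => nodeval t z).sum - ((T.map fun t => (t.1 : ℝ)).sum +
          (T.map fun t => (t.1 : ℝ) * (t.2.1 : ℝ)).sum * z +
          z ^ 2 * ∑ n ∈ range R, (row T n : ℝ) * z ^ n)) := by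
      unfold nodeval
      ring
    rw [e]
    refine (abs_add_le _ _).trans ?_
    have hW0 : (0 : ℝ) ≤ (t.1 : ℝ) := Nat.cast_nonneg _
    rw [abs_mul, abs_of_nonneg hW0]
    calc _ ≤ (t.1 : ℝ) * (C₁ * z ^ (R + 2)) + C₂ * z ^ (R + 2) :=
          add_le_add (mul_le_mul_of_nonneg_left g₁ hW0) g₂
      _ = ((t.1 : ℝ) * C₁ + C₂) * z ^ (R + 2) := by ring

/-- the integers under the roots -/
def rad (Y : ℕ) (t : ℕ × ℤ × ℤ) : ℕ :=
  ((t.1 : ℤ) ^ 2 * (((Y : ℤ) + t.2.1) ^ 2 + t.2.2)).toNat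

theorem rad_bounds (Y b W : ℕ) (t : ℕ × ℤ × ℤ) (ht : 0 < t.1) (hW : t.1 ≤ W)
    (hb : t.2.1.natAbs + t.2.2.natAbs ≤ b) (hY : b + 1 ≤ Y) :
    1 ≤ rad Y t ∧ rad Y t ≤ (W * (Y + b)) ^ 2 ∧
    Real.sqrt (rad Y t : ℝ) = (Y : ℝ) * nodeval t (1 / (Y : ℝ)) := by
  obtain ⟨w, x, y⟩ := t
  simp only at ht hW hb
  have hb' : |x| + |y| ≤ (b : ℤ) := by
    rw [Int.abs_eq_natAbs, Int.abs_eq_natAbs]
    exact_mod_cast hb
  have hY' : (b : ℤ) + 1 ≤ (Y : ℤ) := by exact_mod_cast hY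
  have hx := abs_nonneg x
  have hy := abs_nonneg y
  have hx1 := neg_abs_le x
  have hy1 := neg_abs_le y
  have hx2 := le_abs_self x
  have hy2 := le_abs_self y
  have hq1 : 1 ≤ ((Y : ℤ) + x) ^ 2 + y := by
    have h1 : 1 + |y| ≤ (Y : ℤ) + x := by linarith
    nlinarith
  have hq2 : ((Y : ℤ) + x) ^ 2 + y ≤ ((Y : ℤ) + b) ^ 2 := by
    have h1 : 0 ≤ (Y : ℤ) + x := by linarith
    have h2 : (Y : ℤ) + x ≤ (Y : ℤ) + |x| := by linarith
    have h3 : ((Y : ℤ) + x) ^ 2 ≤ ((Y : ℤ) + |x|) ^ 2 := pow_le_pow_left₀ h1 h2 2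
    have h4 : ((Y : ℤ) + |x|) ^ 2 + |y| ≤ ((Y : ℤ) + |x| + |y|) ^ 2 := by
      nlinarith [mul_nonneg hx hy, mul_nonneg hy hy]
    have h5 : ((Y : ℤ) + |x| + |y|) ^ 2 ≤ ((Y : ℤ) + b) ^ 2 :=
      pow_le_pow_left₀ (by linarith) (by linarith) 2
    linarith
  have hw : (1 : ℤ) ≤ (w : ℤ) := by exact_mod_cast ht
  have hw2 : (1 : ℤ) ≤ (w : ℤ) ^ 2 := by nlinarith
  have hpos : (1 : ℤ) ≤ (w : ℤ) ^ 2 * (((Y : ℤ) + x) ^ 2 + y) := by nlinarith
  have hcast : ((rad Y (w, x, y) : ℕ) : ℤ) = (w : ℤ) ^ 2 * (((Y : ℤ) + x) ^ 2 + y) :=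
    Int.toNat_of_nonneg (by linarith)
  refine ⟨?_, ?_, ?_⟩
  · have : (1 : ℤ) ≤ ((rad Y (w, x, y) : ℕ) : ℤ) := by rw [hcast]; exact hpos
    exact_mod_cast this
  · have hWw : (w : ℤ) ^ 2 ≤ (W : ℤ) ^ 2 :=
      pow_le_pow_left₀ (by linarith) (by exact_mod_cast hW) 2
    have : ((rad Y (w, x, y) : ℕ) : ℤ) ≤ (((W * (Y + b)) ^ 2 : ℕ) : ℤ) := by
      rw [hcast]
      push_cast
      rw [mul_pow]
      exact mul_le_mul hWw hq2 (by linarith) (by positivity)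
    exact_mod_cast this
  · have hY0 : (0 : ℝ) < (Y : ℝ) := by
      have : 0 < Y := by omega
      exact_mod_cast this
    have hR : ((rad Y (w, x, y) : ℕ) : ℝ) = ((w : ℝ) * (Y : ℝ)) ^ 2 *
        ((1 + (x : ℝ) * (1 / (Y : ℝ))) ^ 2 + (y : ℝ) * (1 / (Y : ℝ)) ^ 2) := by
      have h : ((rad Y (w, x, y) : ℕ) : ℝ) =
          (((w : ℤ) ^ 2 * (((Y : ℤ) + x) ^ 2 + y) : ℤ) : ℝ) := by
        rw [← hcast]
        norm_cast
      rw [h]
      push_cast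
      field_simp
    rw [hR, Real.sqrt_mul (by positivity), Real.sqrt_sq (by positivity)]
    unfold nodeval
    ring

theorem gap_of_list (T : List (ℕ × ℤ × ℤ)) (hT : ∀ t ∈ T, 0 < t.1) (N : ℕ)
    (h0 : ∀ n < 2 * N, row T n = 0) (h1 : row T (2 * N) ≠ 0) :
    GapBound T.length ((N : ℝ) + 1 / 2) := by
  obtain ⟨C₀, δ, hδ, hap⟩ := approx_list T (2 * N + 1)
  set D : ℝ := (row T (2 * N) : ℝ) with hD
  have hD0 : D ≠ 0 := by rw [hD]; exact_mod_cast h1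
  have hDp : 0 < |D| := abs_pos.mpr hD0
  set Wm : ℕ := (T.map fun t => t.1).sum + 1 with hWm
  set b : ℕ := (T.map fun t => t.2.1.natAbs + t.2.2.natAbs).sum with hb
  have hWmp : (0 : ℝ) < (Wm : ℝ) := by
    have : 0 < Wm := by omega
    exact_mod_cast this
  have hWt : ∀ t ∈ T, t.1 ≤ Wm := by
    intro t ht
    have := List.single_le_sum (l := T.map fun t => t.1) (fun _ _ => Nat.zero_le _) t.1
      (List.mem_map.mpr ⟨t, ht, rfl⟩)
    omega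
  have hbt : ∀ t ∈ T, t.2.1.natAbs + t.2.2.natAbs ≤ b := by
    intro t ht
    exact List.single_le_sum (l := T.map fun t => t.2.1.natAbs + t.2.2.natAbs)
      (fun _ _ => Nat.zero_le _) _ (List.mem_map.mpr ⟨t, ht, rfl⟩)
  set K : ℝ := 1 / δ + 2 * |C₀| / |D| + 1 with hK
  have hK1 : 1 ≤ K := by
    have h1 : 0 ≤ 1 / δ := by positivity
    have h2 : 0 ≤ 2 * |C₀| / |D| := by positivity
    rw [hK]
    linarith
  set Λ : ℝ := 2 * (Wm : ℝ) * (1 + (b : ℝ) + K) with hΛ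
  have hΛ0 : 0 < Λ := by
    have : (0 : ℝ) ≤ (b : ℝ) := Nat.cast_nonneg _
    rw [hΛ]
    positivity
  obtain ⟨n₀, hn₀⟩ := exists_nat_ge (Λ ^ 2)
  refine ⟨3 / 2 * |D| * (2 * (Wm : ℝ)) ^ (2 * N + 1), by positivity, n₀, fun n hn => ?_⟩
  -- the real square root of `n`
  set r : ℝ := Real.sqrt (n : ℝ) with hr
  have hnr : (n : ℝ) = r ^ 2 := (Real.sq_sqrt (Nat.cast_nonneg _)).symm
  have hΛr : Λ ≤ r := by
    refine Real.le_sqrt_of_sq_le (hn₀.trans ?_)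
    exact_mod_cast hn
  have hr0 : 0 < r := hΛ0.trans_le hΛr
  set q : ℕ := Nat.sqrt n / Wm with hq
  have hq1 : q * Wm ≤ Nat.sqrt n := Nat.div_mul_le_self _ _
  have hq2 : r < ((q : ℝ) + 1) * (Wm : ℝ) := by
    have h1 : Nat.sqrt n + 1 ≤ (q + 1) * Wm := by
      have := Nat.lt_div_mul_add (a := Nat.sqrt n) (b := Wm) (by omega)
      rw [← hq] at this
      rw [add_mul, one_mul]
      omega
    have h2 : r < (Nat.sqrt n : ℝ) + 1 := by
      rw [hr]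
      exact Real.real_sqrt_lt_nat_sqrt_succ
    have h3 : ((Nat.sqrt n : ℝ) + 1) ≤ ((q : ℝ) + 1) * (Wm : ℝ) := by exact_mod_cast h1
    linarith
  have hb0 : (0 : ℝ) ≤ (b : ℝ) := Nat.cast_nonneg _
  have hq3 : r / (2 * (Wm : ℝ)) + (b : ℝ) ≤ (q : ℝ) := by
    have h1 : r / (Wm : ℝ) < (q : ℝ) + 1 := by
      rw [div_lt_iff₀ hWmp]
      exact hq2
    have h2 : 1 + (b : ℝ) + K ≤ r / (2 * (Wm : ℝ)) := by
      rw [le_div_iff₀ (by positivity)]
      calc (1 + (b : ℝ) + K) * (2 * (Wm : ℝ)) = Λ := by rw [hΛ]; ring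
        _ ≤ r := hΛr
    have h3 : r / (Wm : ℝ) = 2 * (r / (2 * (Wm : ℝ))) := by
      field_simp
    linarith
  have h4 : 1 + (b : ℝ) + K ≤ r / (2 * (Wm : ℝ)) := by
    rw [le_div_iff₀ (by positivity)]
    calc (1 + (b : ℝ) + K) * (2 * (Wm : ℝ)) = Λ := by rw [hΛ]; ring
      _ ≤ r := hΛr
  have hbq : b ≤ q := by
    have : (b : ℝ) ≤ (q : ℝ) := by
      have : 0 ≤ r / (2 * (Wm : ℝ)) := by positivity
      linarith
    exact_mod_cast this
  set Y : ℕ := q - b with hYdef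
  have hYq : (Y : ℝ) = (q : ℝ) - (b : ℝ) := by
    rw [hYdef]
    exact Nat.cast_sub hbq
  have hYr : r / (2 * (Wm : ℝ)) ≤ (Y : ℝ) := by rw [hYq]; linarith
  have hYK : 1 + (b : ℝ) + K ≤ (Y : ℝ) := h4.trans hYr
  have hYb : b + 1 ≤ Y := by
    have : (b : ℝ) + 1 ≤ (Y : ℝ) := by linarith
    exact_mod_cast this
  have hY0 : (0 : ℝ) < (Y : ℝ) := by linarith
  set z : ℝ := 1 / (Y : ℝ) with hz
  have hz0 : 0 < z := by positivity
  have hzδ : z < δ := by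
    rw [hz, div_lt_iff₀ hY0]
    have h5 : 1 / δ < (Y : ℝ) := by
      have h2 : 0 ≤ 2 * |C₀| / |D| := by positivity
      rw [hK] at hYK
      linarith
    rw [div_lt_iff₀ hδ] at h5
    linarith
  have hzC : |C₀| * z ≤ |D| / 2 := by
    have h5 : 2 * |C₀| / |D| ≤ (Y : ℝ) := by
      have h2 : 0 ≤ 1 / δ := by positivity
      rw [hK] at hYK
      linarith
    rw [div_le_iff₀ hDp] at h5
    rw [hz, mul_one_div, div_le_iff₀ hY0]
    linarith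
  have hYz : (Y : ℝ) * z = 1 := by
    rw [hz]
    field_simp
  have key := hap z hz0 hzδ
  -- the bound on the integers
  have hrad : ∀ t ∈ T, 1 ≤ rad Y t ∧ rad Y t ≤ n ∧
      Real.sqrt (rad Y t : ℝ) = (Y : ℝ) * nodeval t z := by
    intro t ht
    obtain ⟨g1, g2, g3⟩ := rad_bounds Y b Wm t (hT t ht) (hWt t ht) (hbt t ht) hYb
    refine ⟨g1, g2.trans ?_, g3⟩
    have g4 : Wm * (Y + b) ≤ Nat.sqrt n := by
      have : Y + b = q := by omega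
      rw [this, mul_comm]
      exact hq1
    calc (Wm * (Y + b)) ^ 2 ≤ (Nat.sqrt n) ^ 2 := Nat.pow_le_pow_left g4 2
      _ ≤ n := Nat.sqrt_le' n
  refine ⟨fun i => rad Y (T.get i), fun i => ?_, ?_⟩
  · obtain ⟨g1, g2, _⟩ := hrad (T.get i) (List.get_mem T i)
    exact ⟨g1, g2⟩
  have hsum : ∑ i : Fin T.length, Real.sqrt (rad Y (T.get i) : ℝ) =
      (Y : ℝ) * (T.map fun t => nodeval t z).sum := by
    have e1 : ∑ i : Fin T.length, Real.sqrt (rad Y (T.get i) : ℝ) =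
        ∑ i : Fin T.length, (Y : ℝ) * nodeval (T.get i) z :=
      sum_congr rfl fun i _ => (hrad (T.get i) (List.get_mem T i)).2.2
    rw [e1, ← mul_sum]
    congr 1
    exact Fin.sum_univ_fun_getElem T fun t => nodeval t z
  set m : ℤ := (Y : ℤ) * (T.map fun t => (t.1 : ℤ)).sum +
    (T.map fun t => (t.1 : ℤ) * t.2.1).sum with hm
  have hmR : (m : ℝ) = (Y : ℝ) * ((T.map fun t => (t.1 : ℝ)).sum +
      (T.map fun t => (t.1 : ℝ) * (t.2.1 : ℝ)).sum * z) := by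
    have e1 : (((T.map fun t => (t.1 : ℤ)).sum : ℤ) : ℝ) = (T.map fun t => (t.1 : ℝ)).sum := by
      have := map_list_sum (Int.castRingHom ℝ) (T.map fun t => (t.1 : ℤ))
      rw [List.map_map] at this
      simp [Function.comp_def]
    have e2 : (((T.map fun t => (t.1 : ℤ) * t.2.1).sum : ℤ) : ℝ) =
        (T.map fun t => (t.1 : ℝ) * (t.2.1 : ℝ)).sum := by
      have := map_list_sum (Int.castRingHom ℝ) (T.map fun t => (t.1 : ℤ) * t.2.1)
      rw [List.map_map] at this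
      simp [Function.comp_def]
    rw [hm, Int.cast_add, Int.cast_mul, Int.cast_natCast, e1, e2, mul_add, mul_comm _ z,
      ← mul_assoc, hYz, one_mul]
  have hrows : ∑ n ∈ range (2 * N + 1), (row T n : ℝ) * z ^ n = D * z ^ (2 * N) := by
    rw [sum_range_succ, sum_eq_zero, zero_add]
    intro j hj
    rw [h0 j (mem_range.mp hj), Rat.cast_zero, zero_mul]
  rw [hrows] at key
  set S : ℝ := (T.map fun t => nodeval t z).sum with hS
  set E : ℝ := (T.map fun t => (t.1 : ℝ)).sum +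
      (T.map fun t => (t.1 : ℝ) * (t.2.1 : ℝ)).sum * z with hE
  have hdiff : (Y : ℝ) * S - (m : ℝ) = (Y : ℝ) * (S - E) := by
    rw [hmR]
    ring
  refine ⟨m, ?_⟩
  rw [hsum, hdiff]
  -- the main estimate
  have hest : |(Y : ℝ) * (S - E) - D * z ^ (2 * N + 1)| ≤ |D| / 2 * z ^ (2 * N + 1) := by
    have e1 : (Y : ℝ) * (S - E) - D * z ^ (2 * N + 1) =
        (Y : ℝ) * (S - (E + z ^ 2 * (D * z ^ (2 * N)))) := by
      have : D * z ^ (2 * N + 1) = (Y : ℝ) * z * (D * z ^ (2 * N + 1)) := by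
        rw [hYz, one_mul]
      rw [this]
      ring
    rw [e1, abs_mul, abs_of_pos hY0]
    calc (Y : ℝ) * |S - (E + z ^ 2 * (D * z ^ (2 * N)))| ≤
          (Y : ℝ) * (C₀ * z ^ (2 * N + 1 + 2)) := mul_le_mul_of_nonneg_left key hY0.le
      _ = (Y : ℝ) * z * (C₀ * z) * z ^ (2 * N + 1) := by ring
      _ = C₀ * z * z ^ (2 * N + 1) := by rw [hYz, one_mul]
      _ ≤ |C₀| * z * z ^ (2 * N + 1) := by
          refine mul_le_mul_of_nonneg_right ?_ (by positivity)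
          exact mul_le_mul_of_nonneg_right (le_abs_self _) hz0.le
      _ ≤ |D| / 2 * z ^ (2 * N + 1) := mul_le_mul_of_nonneg_right hzC (by positivity)
  have hzp : 0 < z ^ (2 * N + 1) := by positivity
  have hDz : |D * z ^ (2 * N + 1)| = |D| * z ^ (2 * N + 1) := by
    rw [abs_mul, abs_of_pos hzp]
  constructor
  · have h5 : |D * z ^ (2 * N + 1)| ≤ |(Y : ℝ) * (S - E)| +
        |(Y : ℝ) * (S - E) - D * z ^ (2 * N + 1)| := by
      have := abs_sub_abs_le_abs_sub (D * z ^ (2 * N + 1)) ((Y : ℝ) * (S - E))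
      rw [abs_sub_comm] at this
      linarith
    rw [hDz] at h5
    nlinarith [mul_pos hDp hzp]
  · have h5 : |(Y : ℝ) * (S - E)| ≤ |D * z ^ (2 * N + 1)| +
        |(Y : ℝ) * (S - E) - D * z ^ (2 * N + 1)| := by
      have := abs_sub_abs_le_abs_sub ((Y : ℝ) * (S - E)) (D * z ^ (2 * N + 1))
      linarith
    rw [hDz] at h5
    have h6 : z ≤ 2 * (Wm : ℝ) / r := by
      rw [hz, div_le_div_iff₀ hY0 hr0, one_mul]
      rw [div_le_iff₀ (by positivity)] at hYr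
      linarith
    have h7 : z ^ (2 * N + 1) ≤ (2 * (Wm : ℝ)) ^ (2 * N + 1) / r ^ (2 * N + 1) := by
      rw [← div_pow]
      exact pow_le_pow_left₀ hz0.le h6 _
    have h8 : (n : ℝ) ^ (-((N : ℝ) + 1 / 2)) = 1 / r ^ (2 * N + 1) := by
      have hn0 : (0 : ℝ) ≤ (n : ℝ) := Nat.cast_nonneg _
      have h9 : 1 / 2 * ((2 * N + 1 : ℕ) : ℝ) = (N : ℝ) + 1 / 2 := by
        push_cast
        ring
      rw [Real.rpow_neg hn0, hr, Real.sqrt_eq_rpow, ← Real.rpow_natCast, ← Real.rpow_mul hn0,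
        h9, ← one_div]
    rw [h8]
    calc |(Y : ℝ) * (S - E)| ≤ 3 / 2 * |D| * z ^ (2 * N + 1) := by linarith
      _ ≤ 3 / 2 * |D| * ((2 * (Wm : ℝ)) ^ (2 * N + 1) / r ^ (2 * N + 1)) :=
          mul_le_mul_of_nonneg_left h7 (by positivity)
      _ = 3 / 2 * |D| * (2 * (Wm : ℝ)) ^ (2 * N + 1) * (1 / r ^ (2 * N + 1)) := by ring

end Pool.Agent.Helper73.Gap
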