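import Pool.Agent.Helper73.Gap.Final

/-!
# The bounds
-/

set_option autoImplicit false

namespace Pool.Agent.Helper73.Gap

open Finset

theorem exists_common_denom {M : ℕ} (w : Fin M → ℚ) (hw : ∀ i, 0 < w i) :
    ∃ q : ℕ, 0 < q ∧ ∃ W : Fin M → ℕ, ∀ i, 0 < W i ∧ (W i : ℚ) = (q : ℚ) * w i := by
  refine ⟨∏ i, (w i).den, prod_pos fun i _ => (w i).den_pos,
    fun i => (w i).num.toNat * ∏ j ∈ univ.erase i, (w j).den, fun i => ⟨?_, ?_⟩⟩
  · refine Nat.mul_pos ?_ (prod_pos fun j _ => (w j).den_pos)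
    have := Rat.num_pos.mpr (hw i)
    omega
  · have h1 : (((w i).num.toNat : ℕ) : ℚ) = ((w i).num : ℚ) := by
      have h : (((w i).num.toNat : ℕ) : ℤ) = (w i).num :=
        Int.toNat_of_nonneg (Rat.num_nonneg.mpr (hw i).le)
      exact_mod_cast h
    rw [← mul_prod_erase univ (fun j => (w j).den) (mem_univ i)]
    push_cast
    rw [h1, mul_comm ((w i).den : ℚ), mul_assoc, Rat.den_mul_eq_num, mul_comm]

theorem sum_flatten_ofFn {M : ℕ} {α β : Type} [AddCommMonoid β] (f : Fin M → List α)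
    (g : α → β) : ((List.flatten (List.ofFn f)).map g).sum = ∑ i, ((f i).map g).sum := by
  rw [List.map_flatten, List.sum_flatten, List.map_map, List.map_ofFn, List.sum_ofFn]
  rfl

theorem list_of_St {N K : ℕ} {sg : ℚ} (h : St N K sg) : ∃ T : List (ℕ × ℤ × ℤ),
    T.length = K ∧ (∀ t ∈ T, 0 < t.1) ∧ (∀ n < 2 * N, row T n = 0) ∧ row T (2 * N) ≠ 0 := by
  obtain ⟨B, w, D, hB, hK, hw, hD, _, hrow⟩ := h
  obtain ⟨q, hq, W, hW⟩ := exists_common_denom w hw
  set f : Fin (N + 1) → List (ℕ × ℤ × ℤ) := fun i => (B i).map fun p => (W i, p.1, p.2) with hf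
  have hr : ∀ n, row (List.flatten (List.ofFn f)) n = (q : ℚ) * ∑ i, w i * bc (B i) n := by
    intro n
    unfold row
    rw [sum_flatten_ofFn, mul_sum]
    refine sum_congr rfl fun i _ => ?_
    rw [hf]
    simp only
    rw [List.map_map, ← mul_assoc, ← (hW i).2]
    unfold bc
    rw [← List.sum_map_mul_left]
    rfl
  have hq0 : (q : ℚ) ≠ 0 := by exact_mod_cast hq.ne'
  refine ⟨List.flatten (List.ofFn f), ?_, ?_, ?_, ?_⟩
  · rw [List.length_flatten, List.map_ofFn, List.sum_ofFn, ← hK]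
    refine sum_congr rfl fun i _ => ?_
    simp [hf]
  · intro t ht
    obtain ⟨l, hl, htl⟩ := List.mem_flatten.mp ht
    obtain ⟨i, rfl⟩ := (List.mem_ofFn' f l).mp hl
    obtain ⟨p, _, rfl⟩ := List.mem_map.mp htl
    exact (hW i).1
  · intro n hn
    rw [hr]
    rcases Nat.even_or_odd' n with ⟨j, rfl | rfl⟩
    · have hj : j < N := by omega
      have h := hrow ⟨j, by omega⟩
      simp only at h
      rw [h, if_neg, mul_zero]
      intro h'
      have := congrArg Fin.val h'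
      simp only [Fin.val_last] at this
      omega
    · rw [sum_eq_zero, mul_zero]
      intro i _
      rw [hB i j, mul_zero]
  · rw [hr]
    have h := hrow (Fin.last N)
    rw [Fin.val_last, if_pos rfl] at h
    rw [h]
    refine mul_ne_zero hq0 ?_
    rintro rfl
    rw [mul_zero] at hD
    exact lt_irrefl _ hD

/-- more roots are not worse -/
theorem GapBound.succ {k : ℕ} {e : ℝ} (h : GapBound k e) : GapBound (k + 1) e := by
  obtain ⟨C, hC, n₀, h⟩ := h
  refine ⟨C, hC, max n₀ 1, fun n hn => ?_⟩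
  obtain ⟨a, ha, m, h1, h2⟩ := h n ((le_max_left _ _).trans hn)
  have hn1 : 1 ≤ n := (le_max_right _ _).trans hn
  have hs : ∑ i, Real.sqrt ((Fin.snoc a 1 : Fin (k + 1) → ℕ) i : ℝ) - ((m + 1 : ℤ) : ℝ) =
      ∑ i, Real.sqrt (a i : ℝ) - (m : ℝ) := by
    rw [Fin.sum_univ_castSucc]
    simp only [Fin.snoc_castSucc, Fin.snoc_last]
    push_cast
    rw [Real.sqrt_one]
    ring
  refine ⟨Fin.snoc a 1, fun i => ?_, m + 1, ?_, ?_⟩
  · refine Fin.lastCases ?_ (fun i => ?_) i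
    · rw [Fin.snoc_last]
      exact ⟨le_rfl, hn1⟩
    · rw [Fin.snoc_castSucc]
      exact ha i
  · rw [hs]; exact h1
  · rw [hs]; exact h2

theorem GapBound.mono {k l : ℕ} {e : ℝ} (h : GapBound k e) (hkl : k ≤ l) : GapBound l e := by
  induction l, hkl using Nat.le_induction with
  | base => exact h
  | succ l _ ih => exact ih.succ

theorem gap_of_St {N K : ℕ} {sg : ℚ} (h : St N K sg) : GapBound K ((N : ℝ) + 1 / 2) := by
  obtain ⟨T, h1, h2, h3, h4⟩ := list_of_St h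
  rw [← h1]
  exact gap_of_list T h2 N h3 h4

theorem gap_all (k : ℕ) (hk : 1 ≤ k) :
    GapBound k ((((2 * (k + 1) / 3 : ℕ) : ℝ)) - 1 / 2) := by
  have h0 : ∀ N K : ℕ, GapBound K ((N : ℝ) + 1 / 2) → K ≤ k → 2 * (k + 1) / 3 = N + 1 →
      GapBound k ((((2 * (k + 1) / 3 : ℕ) : ℝ)) - 1 / 2) := by
    intro N K h hK hN
    rw [hN]
    have e : (((N + 1 : ℕ) : ℝ)) - 1 / 2 = (N : ℝ) + 1 / 2 := by
      push_cast
      ring
    rw [e]
    exact h.mono hK
  obtain ⟨N, hN⟩ : ∃ N, 2 * (k + 1) / 3 = N + 1 := ⟨2 * (k + 1) / 3 - 1, by omega⟩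
  rcases Nat.even_or_odd' N with ⟨m, rfl | rfl⟩
  · exact h0 _ _ (gap_of_St (st_all m).1) (by omega) hN
  · exact h0 _ _ (gap_of_St (st_all m).2) (by omega) hN

theorem ee_two (x y : ℚ) : ee x y 2 = x ^ 2 / 2 - y / 8 := by
  rw [ee_add_two]
  simp [ee_one, ee_zero]
  ring

theorem ee_three (x y : ℚ) : ee x y 3 = -x ^ 3 / 2 + 3 * x * y / 8 := by
  rw [ee_add_two, ee_two]
  simp [Finset.Nat.antidiagonal_succ, ee_one, ee_zero]
  ring

theorem ee_four (x y : ℚ) : ee x y 4 = x ^ 4 / 2 - 3 * x ^ 2 * y / 4 + y ^ 2 / 16 := by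
  rw [ee_add_two, ee_three]
  simp [Finset.Nat.antidiagonal_succ, ee_one, ee_zero, ee_two]
  ring

theorem ee_five (x y : ℚ) : ee x y 5 =
    -x ^ 5 / 2 + 5 * x ^ 3 * y / 4 - 5 * x * y ^ 2 / 16 := by
  rw [ee_add_two, ee_four]
  simp [Finset.Nat.antidiagonal_succ, ee_one, ee_zero, ee_two, ee_three]
  ring

theorem ee_six (x y : ℚ) : ee x y 6 =
    x ^ 6 / 2 - 15 * x ^ 4 * y / 8 + 15 * x ^ 2 * y ^ 2 / 16 - 5 * y ^ 3 / 128 := by
  rw [ee_add_two, ee_five]
  simp [Finset.Nat.antidiagonal_succ, ee_one, ee_zero, ee_two, ee_three, ee_four]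
  ring

/-- three roots: `√((X - 3)² + 12) + √(X² - 24) + √((X + 3)² + 12)` -/
theorem gap_three : GapBound 3 (5 / 2) := by
  have h := gap_of_list [(1, -3, 12), (1, 0, -24), (1, 3, 12)] (by simp) 2 (by
    intro n hn
    interval_cases n <;>
      norm_num [row, ee_zero, ee_one, ee_two, ee_three]) (by
    norm_num [row, ee_four])
  have e : ((2 : ℕ) : ℝ) + 1 / 2 = 5 / 2 := by norm_num
  rw [e] at h
  exact h

/-- four roots: `√(X² + 3) + 9 √(X² - 1) + 3 √((X + 1)² + 1) + 3 √((X - 1)² + 1)` -/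
theorem gap_four : GapBound 4 (7 / 2) := by
  have h := gap_of_list [(1, 0, 3), (9, 0, -1), (3, 1, 1), (3, -1, 1)] (by simp) 3 (by
    intro n hn
    interval_cases n <;>
      norm_num [row, ee_zero, ee_one, ee_two, ee_three, ee_four, ee_five]) (by
    norm_num [row, ee_six])
  have e : ((3 : ℕ) : ℝ) + 1 / 2 = 7 / 2 := by norm_num
  rw [e] at h
  exact h

end Pool.Agent.Helper73.Gap
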