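import Pool.Agent.Helper73.Gap.Coef

/-!
# The induction: one more block of roots kills one more coefficient
-/

set_option autoImplicit false

namespace Pool.Agent.Helper73.Gap

open Finset Filter Topology Matrix

/-- contribution of a block of roots at order `n` -/
def bc (b : List (ℤ × ℤ)) (n : ℕ) : ℚ :=
  (b.map fun p => (p.2 : ℚ) * ee (p.1 : ℚ) (p.2 : ℚ) n).sum

/-- a symmetric block -/
def Good (b : List (ℤ × ℤ)) : Prop := ∀ n, bc b (2 * n + 1) = 0

/-- `N + 1` blocks with `K` roots and positive weights, killing the rows `0, ..., N - 1` -/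
def St (N K : ℕ) (sg : ℚ) : Prop :=
  ∃ (B : Fin (N + 1) → List (ℤ × ℤ)) (w : Fin (N + 1) → ℚ) (D : ℚ),
    (∀ i, Good (B i)) ∧ ∑ i, (B i).length = K ∧ (∀ i, 0 < w i) ∧ 0 < sg * D ∧
    (Matrix.of fun j i : Fin (N + 1) => bc (B i) (2 * (j : ℕ))).det ≠ 0 ∧
    ∀ j : Fin (N + 1), ∑ i, w i * bc (B i) (2 * (j : ℕ)) = if j = Fin.last N then D else 0

theorem step {N K L : ℕ} {sg : ℚ} (hsg : sg * sg = 1) (blk : ℕ → List (ℤ × ℤ))
    (h0 : ∀ s, Good (blk s)) (hL : ∀ s, (blk s).length = L)
    (h1 : ∀ᶠ s in atTop, 0 < sg * bc (blk s) (2 * N))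
    (h2 : ∀ j < N, Tendsto (fun s => bc (blk s) (2 * j) / bc (blk s) (2 * N)) atTop (𝓝 0))
    (h3 : Tendsto (fun s => bc (blk s) (2 * (N + 1)) / bc (blk s) (2 * N)) atTop atTop)
    (h : St N K (-sg)) : St (N + 1) (K + L) sg := by
  obtain ⟨B, w, D, hB, hK, hw, hD, hA, hrow⟩ := h
  set A : Matrix (Fin (N + 1)) (Fin (N + 1)) ℚ :=
    Matrix.of fun j i : Fin (N + 1) => bc (B i) (2 * (j : ℕ)) with hAdef
  have hU : IsUnit A.det := isUnit_iff_ne_zero.mpr hA
  have hAv : ∀ (v : Fin (N + 1) → ℚ) (j : Fin (N + 1)),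
      (A *ᵥ v) j = ∑ i, v i * bc (B i) (2 * (j : ℕ)) := by
    intro v j
    simp only [hAdef, mulVec, dotProduct, of_apply]
    exact sum_congr rfl fun i _ => mul_comm _ _
  have hcan : ∀ v : Fin (N + 1) → ℚ, A⁻¹ *ᵥ (A *ᵥ v) = v := by
    intro v
    rw [mulVec_mulVec, nonsing_inv_mul A hU, one_mulVec]
  have hcan' : ∀ v : Fin (N + 1) → ℚ, A *ᵥ (A⁻¹ *ᵥ v) = v := by
    intro v
    rw [mulVec_mulVec, mul_nonsing_inv A hU, one_mulVec]
  have hD0 : D ≠ 0 := by
    rintro rfl
    rw [mul_zero] at hD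
    exact lt_irrefl _ hD
  -- the ratios
  set R : ℕ → Fin (N + 1) → ℚ := fun s j => bc (blk s) (2 * (j : ℕ)) / bc (blk s) (2 * N)
    with hRdef
  have hR : ∀ j : Fin (N + 1), Tendsto (fun s => R s j) atTop
      (𝓝 (if j = Fin.last N then (1 : ℚ) else 0)) := by
    intro j
    rcases eq_or_ne j (Fin.last N) with hj | hj
    · rw [if_pos hj, hj]
      refine tendsto_const_nhds.congr' ?_
      filter_upwards [h1] with s hs
      rw [hRdef]
      simp only [Fin.val_last]
      rw [div_self]
      intro h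
      rw [h, mul_zero] at hs
      exact lt_irrefl _ hs
    · rw [if_neg hj]
      exact h2 j (by
        have := j.isLt
        have h : (j : ℕ) ≠ N := fun h => hj (Fin.ext (by rw [h, Fin.val_last]))
        omega)
  set u : ℕ → Fin (N + 1) → ℚ := fun s => D • (A⁻¹ *ᵥ R s) with hudef
  have hue : ∀ s i, u s i = D * ∑ j, A⁻¹ i j * R s j := by
    intro s i
    simp only [hudef, Pi.smul_apply, smul_eq_mul, mulVec, dotProduct]
  have hwe : ∀ i, w i = D * ∑ j, A⁻¹ i j * (if j = Fin.last N then (1 : ℚ) else 0) := by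
    intro i
    have h : A *ᵥ w = D • (fun j => if j = Fin.last N then (1 : ℚ) else 0) := by
      funext j
      rw [hAv, hrow, Pi.smul_apply, smul_eq_mul]
      split_ifs <;> simp
    have h' := congrFun (hcan w) i
    rw [h, mulVec_smul, Pi.smul_apply, smul_eq_mul] at h'
    rw [← h']
    rfl
  have hu : ∀ i, Tendsto (fun s => u s i) atTop (𝓝 (w i)) := by
    intro i
    simp only [hue]
    rw [hwe i]
    refine Tendsto.const_mul D (tendsto_finsetSum _ fun j _ => ?_)
    exact (hR j).const_mul _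
  have hupos : ∀ᶠ s in atTop, ∀ i, 0 < u s i :=
    eventually_all.mpr fun i => (hu i).eventually (lt_mem_nhds (hw i))
  set D' : ℕ → ℚ := fun s => ∑ i, u s i * bc (B i) (2 * (N + 1)) -
    D * (bc (blk s) (2 * (N + 1)) / bc (blk s) (2 * N)) with hD'def
  have hD' : Tendsto (fun s => sg * D' s) atTop atTop := by
    have e : (fun s => sg * D' s) = fun s => sg * (∑ i, u s i * bc (B i) (2 * (N + 1))) +
        (-sg * D) * (bc (blk s) (2 * (N + 1)) / bc (blk s) (2 * N)) := by
      funext s
      rw [hD'def]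
      ring
    rw [e]
    refine Tendsto.add_atTop (C := sg * ∑ i, w i * bc (B i) (2 * (N + 1))) ?_
      (h3.const_mul_atTop hD)
    refine Tendsto.const_mul _ (tendsto_finsetSum _ fun i _ => ?_)
    exact (hu i).mul_const _
  obtain ⟨s, hs1, hs2, hs3⟩ := (h1.and (hupos.and (hD'.eventually (eventually_gt_atTop 0)))).exists
  have hg0 : bc (blk s) (2 * N) ≠ 0 := by
    intro h
    rw [h, mul_zero] at hs1
    exact lt_irrefl _ hs1
  have hD'0 : D' s ≠ 0 := by
    intro h
    rw [h, mul_zero] at hs3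
    exact lt_irrefl _ hs3
  have hold : ∀ j : Fin (N + 1), ∑ i, u s i * bc (B i) (2 * (j : ℕ)) =
      D * (bc (blk s) (2 * (j : ℕ)) / bc (blk s) (2 * N)) := by
    intro j
    rw [← hAv]
    simp only [hudef]
    rw [mulVec_smul, hcan', Pi.smul_apply, smul_eq_mul]
  refine ⟨Fin.snoc B (blk s), Fin.snoc (u s) (-D / bc (blk s) (2 * N)), D' s, ?_, ?_, ?_, hs3,
    ?_, ?_⟩
  · intro i
    refine Fin.lastCases ?_ (fun i => ?_) i
    · rw [Fin.snoc_last]; exact h0 s
    · rw [Fin.snoc_castSucc]; exact hB i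
  · rw [Fin.sum_univ_castSucc]
    simp only [Fin.snoc_last, Fin.snoc_castSucc]
    rw [hK, hL]
  · intro i
    refine Fin.lastCases ?_ (fun i => ?_) i
    · rw [Fin.snoc_last]
      have e : -D / bc (blk s) (2 * N) = (-sg * D) / (sg * bc (blk s) (2 * N)) := by
        have hsg0 : sg ≠ 0 := by
          rintro rfl
          rw [mul_zero] at hsg
          exact zero_ne_one hsg
        rw [neg_mul, neg_div, neg_div, mul_div_mul_left _ _ hsg0]
      rw [e]
      exact div_pos hD hs1
    · rw [Fin.snoc_castSucc]; exact hs2 i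
  · intro hdet
    obtain ⟨v, hv0, hv⟩ := Matrix.exists_mulVec_eq_zero_iff.mpr hdet
    have hrowv : ∀ j : Fin (N + 1 + 1), ∑ i : Fin (N + 1), v i.castSucc *
        bc (B i) (2 * (j : ℕ)) + v (Fin.last (N + 1)) * bc (blk s) (2 * (j : ℕ)) = 0 := by
      intro j
      have h := congrFun hv j
      simp only [mulVec, dotProduct, of_apply, Pi.zero_apply] at h
      rw [Fin.sum_univ_castSucc] at h
      simp only [Fin.snoc_last, Fin.snoc_castSucc] at h
      rw [← h]
      congr 1
      · exact sum_congr rfl fun i _ => mul_comm _ _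
      · exact mul_comm _ _
    set c : ℚ := v (Fin.last (N + 1)) with hc
    set vo : Fin (N + 1) → ℚ := fun i => v i.castSucc with hvo
    have hvo2 : vo = (-c * bc (blk s) (2 * N) / D) • u s := by
      have h : A *ᵥ vo = A *ᵥ ((-c * bc (blk s) (2 * N) / D) • u s) := by
        funext j
        rw [hAv, mulVec_smul, Pi.smul_apply, hAv, hold, smul_eq_mul]
        have h := hrowv j.castSucc
        rw [Fin.val_castSucc] at h
        have h' : ∑ i, vo i * bc (B i) (2 * (j : ℕ)) = -(c * bc (blk s) (2 * (j : ℕ))) := by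
          linarith
        rw [h']
        field_simp
      rw [← hcan vo, h, hcan]
    have hlast := hrowv (Fin.last (N + 1))
    rw [Fin.val_last] at hlast
    have h5 : ∑ i : Fin (N + 1), v i.castSucc * bc (B i) (2 * (N + 1)) =
        (-c * bc (blk s) (2 * N) / D) * ∑ i, u s i * bc (B i) (2 * (N + 1)) := by
      rw [mul_sum]
      refine sum_congr rfl fun i _ => ?_
      have h := congrFun hvo2 i
      rw [Pi.smul_apply, smul_eq_mul] at h
      have h' : v i.castSucc = vo i := rfl
      rw [h', h, mul_assoc]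
    have h6 : (-c * bc (blk s) (2 * N) / D) * D' s = 0 := by
      rw [hD'def]
      simp only
      rw [mul_sub, ← h5]
      have h7 : (-c * bc (blk s) (2 * N) / D) *
          (D * (bc (blk s) (2 * (N + 1)) / bc (blk s) (2 * N))) =
          -(c * bc (blk s) (2 * (N + 1))) := by
        field_simp
      rw [h7]
      linarith
    have hc0 : c = 0 := by
      rcases mul_eq_zero.mp h6 with h | h
      · rw [div_eq_zero_iff, mul_eq_zero, neg_eq_zero] at h
        rcases h with (h | h) | h
        · exact h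
        · exact absurd h hg0
        · exact absurd h hD0
      · exact absurd h hD'0
    apply hv0
    funext i
    refine Fin.lastCases ?_ (fun i => ?_) i
    · exact hc0
    · have h := congrFun hvo2 i
      rw [hc0] at h
      simpa using h
  · intro j
    rw [Fin.sum_univ_castSucc]
    simp only [Fin.snoc_last, Fin.snoc_castSucc]
    refine Fin.lastCases ?_ (fun j => ?_) j
    · rw [if_pos rfl, Fin.val_last, hD'def]
      simp only
      ring
    · rw [Fin.val_castSucc, hold, if_neg (Fin.castSucc_lt_last j).ne]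
      ring

end Pool.Agent.Helper73.Gap
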